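import Pool.Agent.Y694.T6.Stm

/-!
# The 5-ary tree embeds in every branch of a 6-regular tree
-/

set_option autoImplicit false

namespace Pool.Agent.Y811.T6

open Pool.Agent.Y694.T6

variable {V : Type*} {G : SimpleGraph V}

/-- a vertex of a tree has only one neighbour closer to a given vertex -/
theorem closer_unique (hT : G.IsTree) {c d d' u : V} (h : G.Adj c d) (h' : G.Adj c d')
    (h1 : G.dist c u = G.dist d u + 1) (h2 : G.dist c u = G.dist d' u + 1) : d = d' := by
  obtain ⟨q, hq, hql⟩ := hT.connected.exists_path_of_dist d u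
  obtain ⟨q', hq', hql'⟩ := hT.connected.exists_path_of_dist d' u
  have p1 := (SimpleGraph.Walk.cons h q).isPath_of_length_eq_dist (by
    rw [SimpleGraph.Walk.length_cons, hql, h1])
  have p2 := (SimpleGraph.Walk.cons h' q').isPath_of_length_eq_dist (by
    rw [SimpleGraph.Walk.length_cons, hql', h2])
  have h3 := (hT.existsUnique_path c u).unique p1 p2
  have h4 := congrArg SimpleGraph.Walk.snd h3
  simpa using h4

theorem exists_ch (hdeg : Deg6 G) (p c : V) : ∃ f : Fin 5 → V, G.Adj p c →
    Function.Injective f ∧ Set.range f = {d | G.Adj c d ∧ d ≠ p} := by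
  by_cases h : G.Adj p c
  · have h1 : {d | G.Adj c d ∧ d ≠ p} = G.neighborSet c \ {p} := by
      ext d
      simp
    have h2 : {d | G.Adj c d ∧ d ≠ p}.ncard = 5 := by
      rw [h1, Set.ncard_diff_singleton_of_mem (show p ∈ G.neighborSet c from h.symm), hdeg c]
    have h3 : Nat.card {d | G.Adj c d ∧ d ≠ p} = 5 := by
      rw [Nat.card_coe_set_eq, h2]
    haveI : Finite {d | G.Adj c d ∧ d ≠ p} := Nat.finite_of_card_ne_zero (by omega)
    let e := Finite.equivFinOfCardEq h3
    refine ⟨fun i => (e.symm i : V), fun _ => ⟨?_, ?_⟩⟩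
    · exact Subtype.val_injective.comp e.symm.injective
    · ext d
      constructor
      · rintro ⟨i, rfl⟩
        exact (e.symm i).2
      · intro hd
        exact ⟨e ⟨d, hd⟩, by simp⟩
  · exact ⟨fun _ => c, fun h' => absurd h' h⟩

/-- the embedding -/
def phi (ch : V → V → Fin 5 → V) : List (Fin 5) → V → V → V
  | [], _, c => c
  | i :: l, p, c => phi ch l c (ch p c i)

theorem phi_dist (hT : G.IsTree) (ch : V → V → Fin 5 → V)
    (hch : ∀ p c, G.Adj p c → Function.Injective (ch p c) ∧
      Set.range (ch p c) = {d | G.Adj c d ∧ d ≠ p}) (l : List (Fin 5)) :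
    ∀ p c, G.Adj p c → G.dist c (phi ch l p c) = l.length ∧
      G.dist p (phi ch l p c) = l.length + 1 := by
  induction l with
  | nil =>
    intro p c h
    refine ⟨SimpleGraph.dist_self, ?_⟩
    change G.dist p c = 0 + 1
    rw [SimpleGraph.dist_eq_one_iff_adj.2 h]
  | cons i l ih =>
    intro p c h
    have hd : ch p c i ∈ {d | G.Adj c d ∧ d ≠ p} := by
      rw [← (hch p c h).2]
      exact ⟨i, rfl⟩
    obtain ⟨h1, h2⟩ := ih c (ch p c i) hd.1
    change G.dist c (phi ch l c (ch p c i)) = l.length + 1 ∧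
      G.dist p (phi ch l c (ch p c i)) = l.length + 1 + 1
    refine ⟨h2, ?_⟩
    have h3 := hT.dist_eq_dist_add_one_of_adj (phi ch l c (ch p c i)) h
    rw [SimpleGraph.dist_comm (v := p), SimpleGraph.dist_comm (v := c)] at h3
    rcases h3 with h3 | h3
    · rw [h3, h2]
    · exfalso
      exact hd.2 (closer_unique hT hd.1 h.symm (by rw [h1, h2]) h3)

theorem phi_inj (hT : G.IsTree) (ch : V → V → Fin 5 → V)
    (hch : ∀ p c, G.Adj p c → Function.Injective (ch p c) ∧
      Set.range (ch p c) = {d | G.Adj c d ∧ d ≠ p}) (l : List (Fin 5)) :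
    ∀ l' p c, G.Adj p c → phi ch l p c = phi ch l' p c → l = l' := by
  induction l with
  | nil =>
    intro l' p c h he
    have h1 := (phi_dist hT ch hch [] p c h).1
    have h2 := (phi_dist hT ch hch l' p c h).1
    rw [he, h2] at h1
    exact (List.length_eq_zero_iff.1 h1).symm
  | cons i l ih =>
    intro l' p c h he
    cases l' with
    | nil =>
      have h1 := (phi_dist hT ch hch (i :: l) p c h).1
      have h2 := (phi_dist hT ch hch [] p c h).1
      rw [he, h2] at h1
      simp at h1
    | cons i' l' =>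
      have hd : ch p c i ∈ {d | G.Adj c d ∧ d ≠ p} := by
        rw [← (hch p c h).2]
        exact ⟨i, rfl⟩
      have hd' : ch p c i' ∈ {d | G.Adj c d ∧ d ≠ p} := by
        rw [← (hch p c h).2]
        exact ⟨i', rfl⟩
      have he' : phi ch l c (ch p c i) = phi ch l' c (ch p c i') := he
      obtain ⟨a1, a2⟩ := phi_dist hT ch hch l c _ hd.1
      obtain ⟨b1, b2⟩ := phi_dist hT ch hch l' c _ hd'.1
      rw [← he'] at b1 b2
      have h5 : ch p c i = ch p c i' := closer_unique hT hd.1 hd'.1 (by rw [a1, a2])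
        (by rw [b1, b2])
      have h6 := (hch p c h).1 h5
      subst h6
      rw [ih l' c _ hd.1 he']

theorem t_emb {V : Type*} (G : SimpleGraph V) (hT : G.IsTree) (hdeg : Deg6 G) : EmbEx G := by
  choose ch hch using exists_ch (G := G) hdeg
  refine ⟨ch, fun p c l => phi ch l p c, fun p c => rfl, fun p c i l => rfl, hch, ?_⟩
  intro p c h l l' he
  exact phi_inj hT ch hch l l' p c h he

end Pool.Agent.Y811.T6
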