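import Pool.Agent.Y694.T6.Stm

/-!
# The numerical recursion
-/

set_option autoImplicit false

open Filter Topology

namespace Pool.Agent.Y811.T6

open Pool.Agent.Y694.T6

theorem gg_mono {x a : ℝ} (hx : 0 ≤ x) (hxa : x ≤ a) (ha : a ≤ 1) :
    4 * x ^ 3 - 3 * x ^ 4 ≤ 4 * a ^ 3 - 3 * a ^ 4 := by
  have ha0 : 0 ≤ a := hx.trans hxa
  have hx1 : x ≤ 1 := hxa.trans ha
  have e : 4 * a ^ 3 - 3 * a ^ 4 - (4 * x ^ 3 - 3 * x ^ 4) =
      (a - x) * (3 * a ^ 2 * (1 - a) + 3 * (a * x) * (1 - a) + 3 * (a * x) * (1 - x) +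
        3 * x ^ 2 * (1 - x) + (a - x) ^ 2) := by ring
  have h1 : 0 ≤ 1 - a := by linarith
  have h2 : 0 ≤ 1 - x := by linarith
  have h3 : 0 ≤ a - x := by linarith
  have h4 : 0 ≤ (a - x) * (3 * a ^ 2 * (1 - a) + 3 * (a * x) * (1 - a) + 3 * (a * x) * (1 - x) +
        3 * x ^ 2 * (1 - x) + (a - x) ^ 2) := by positivity
  linarith

theorem t_num : Pool.Agent.Y694.T6.Num := by
  intro z F hF0 hF z0 z1 hz0 hrec C
  have step : ∀ (k : ℕ) (a : ℝ), z k ≤ a → a ≤ 1 →
      z (k + 1) ≤ 219 / 200 * (4 * a ^ 3 - 3 * a ^ 4) := by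
    intro k a hk ha
    have h1 := gg_mono (z0 k) hk ha
    have h2 : 0 ≤ 4 * z k ^ 3 - 3 * z k ^ 4 := by
      have e : 4 * z k ^ 3 - 3 * z k ^ 4 = z k ^ 3 * (4 - 3 * z k) := by ring
      rw [e]
      have := z1 k
      have h3 : 0 ≤ 4 - 3 * z k := by linarith
      have h4 := z0 k
      positivity
    calc z (k + 1) ≤ 5 * F * (4 * z k ^ 3 - 3 * z k ^ 4) := hrec k
      _ ≤ 219 / 200 * (4 * z k ^ 3 - 3 * z k ^ 4) := by
          apply mul_le_mul_of_nonneg_right _ h2
          linarith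
      _ ≤ _ := by linarith
  have s1 : z 1 ≤ 6536 / 10000 := by
    have := step 0 _ hz0 (by norm_num)
    norm_num at this ⊢
    linarith
  have s2 : z 2 ≤ 6235 / 10000 := by
    have := step 1 _ s1 (by norm_num)
    norm_num at this ⊢
    linarith
  have s3 : z 3 ≤ 5652 / 10000 := by
    have := step 2 _ s2 (by norm_num)
    norm_num at this ⊢
    linarith
  have s4 : z 4 ≤ 4557 / 10000 := by
    have := step 3 _ s3 (by norm_num)
    norm_num at this ⊢
    linarith
  have s5 : z 5 ≤ 2730 / 10000 := by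
    have := step 4 _ s4 (by norm_num)
    norm_num at this ⊢
    linarith
  have s6 : z 6 ≤ 710 / 10000 := by
    have := step 5 _ s5 (by norm_num)
    norm_num at this ⊢
    linarith
  have s7 : z 7 ≤ 1 / 100 := by
    have := step 6 _ s6 (by norm_num)
    norm_num at this ⊢
    linarith
  have cub : ∀ k, z (k + 1) ≤ 5 * z k ^ 2 * z k := by
    intro k
    have h1 := step k (z k) le_rfl (z1 k)
    have h2 : 0 ≤ z k ^ 3 := pow_nonneg (z0 k) 3
    have h3 : 0 ≤ z k ^ 4 := pow_nonneg (z0 k) 4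
    have e : 5 * z k ^ 2 * z k = 5 * z k ^ 3 := by ring
    rw [e]
    linarith
  have half : ∀ j : ℕ, z (7 + j) ≤ 1 / 100 * (1 / 2) ^ j := by
    intro j
    induction j with
    | zero => simpa using s7
    | succ j ih =>
      have h1 := cub (7 + j)
      have h2 := z0 (7 + j)
      have h3 : z (7 + j) ≤ 1 / 100 := by
        refine ih.trans ?_
        have : ((1 : ℝ) / 2) ^ j ≤ 1 := pow_le_one₀ (by norm_num) (by norm_num)
        linarith
      have h4 : 5 * z (7 + j) ^ 2 ≤ 1 / 2 := by nlinarith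
      have h5 : 5 * z (7 + j) ^ 2 * z (7 + j) ≤ 1 / 2 * z (7 + j) :=
        mul_le_mul_of_nonneg_right h4 h2
      rw [pow_succ]
      have e : 7 + (j + 1) = 7 + j + 1 := by ring
      rw [e]
      linarith
  have lim : Tendsto z atTop (𝓝 0) := by
    rw [← tendsto_add_atTop_iff_nat 7]
    have h1 : Tendsto (fun j : ℕ => (1 / 100 : ℝ) * (1 / 2) ^ j) atTop (𝓝 0) := by
      have h2 := tendsto_pow_atTop_nhds_zero_of_lt_one (r := (1 / 2 : ℝ)) (by norm_num)
        (by norm_num)
      simpa using h2.const_mul (1 / 100 : ℝ)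
    refine squeeze_zero (fun j => z0 _) (fun j => ?_) h1
    rw [add_comm]
    exact half j
  -- the ratios
  set r : ℝ := Real.exp (-(C + 1)) with hr
  have hr0 : 0 < r := Real.exp_pos _
  have hlim2 : Tendsto (fun k => 5 * z k ^ 2) atTop (𝓝 0) := by
    have := (lim.pow 2).const_mul 5
    simpa using this
  obtain ⟨K, hK⟩ := eventually_atTop.1 (hlim2.eventually_lt_const hr0)
  have geo : ∀ j : ℕ, z (K + j) ≤ r ^ j := by
    intro j
    induction j with
    | zero => simpa using z1 K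
    | succ j ih =>
      have h1 := cub (K + j)
      have h2 := z0 (K + j)
      have h3 := (hK (K + j) (by omega)).le
      have e : K + (j + 1) = K + j + 1 := by ring
      rw [e, pow_succ']
      calc z (K + j + 1) ≤ 5 * z (K + j) ^ 2 * z (K + j) := h1
        _ ≤ r * z (K + j) := mul_le_mul_of_nonneg_right h3 h2
        _ ≤ r * r ^ j := mul_le_mul_of_nonneg_left ih hr0.le
  obtain ⟨M, hM⟩ := exists_nat_ge (C * K)
  rw [eventually_atTop]
  refine ⟨K + M, fun k hk => ?_⟩
  obtain ⟨j, rfl⟩ := Nat.exists_eq_add_of_le (show K ≤ k by omega)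
  refine (geo j).trans ?_
  rw [hr, ← Real.exp_nat_mul, Real.exp_le_exp]
  push_cast
  have h1 : (M : ℝ) ≤ j := by
    have : M ≤ j := by omega
    exact_mod_cast this
  nlinarith

end Pool.Agent.Y811.T6
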