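import Pool.Agent.Y694.T6.Stm

/-!
# Existence of the 6-regular tree
-/

set_option autoImplicit false

namespace Pool.Agent.Y811.T6

open Pool.Agent.Y694.T6

/-- reduced words -/
abbrev Wd : Type := {l : List (Fin 6) // l.IsChain (· ≠ ·)}

/-- the Cayley graph of the free product of six groups of order two -/
def Tr : SimpleGraph Wd where
  Adj a b := (∃ i, b.1 = i :: a.1) ∨ (∃ i, a.1 = i :: b.1)
  symm := ⟨fun _ _ h => h.symm⟩
  loopless := ⟨by
    rintro a (⟨i, h⟩ | ⟨i, h⟩)
    · exact absurd (congrArg List.length h) (by simp)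
    · exact absurd (congrArg List.length h) (by simp)⟩

theorem adj_iff (a b : Wd) : Tr.Adj a b ↔ (∃ i, b.1 = i :: a.1) ∨ (∃ i, a.1 = i :: b.1) := Iff.rfl

/-- multiplication by a generator -/
def mu (i : Fin 6) : List (Fin 6) → List (Fin 6)
  | [] => [i]
  | j :: l => if i = j then l else i :: j :: l

theorem mu_chain (i : Fin 6) (l : List (Fin 6)) (h : l.IsChain (· ≠ ·)) :
    (mu i l).IsChain (· ≠ ·) := by
  cases l with
  | nil => simp [mu]
  | cons j l =>
    change (if i = j then l else i :: j :: l).IsChain (· ≠ ·)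
    split_ifs with hij
    · exact h.tail
    · rw [List.isChain_cons_cons]
      exact ⟨hij, h⟩

theorem mu_inj (l : List (Fin 6)) (i i' : Fin 6) (h : mu i l = mu i' l) : i = i' := by
  cases l with
  | nil => simpa [mu] using h
  | cons j l =>
    change (if i = j then l else i :: j :: l) = (if i' = j then l else i' :: j :: l) at h
    split_ifs at h with h1 h2 h2
    · rw [h1, h2]
    · exact absurd (congrArg List.length h) (by simp only [List.length_cons]; omega)
    · exact absurd (congrArg List.length h) (by simp only [List.length_cons]; omega)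
    · simpa using h

theorem adj_mu (a b : Wd) : Tr.Adj a b ↔ ∃ i, mu i a.1 = b.1 := by
  rw [adj_iff]
  constructor
  · rintro (⟨i, h⟩ | ⟨i, h⟩)
    · refine ⟨i, ?_⟩
      have hb := b.2
      rw [h] at hb
      rw [h]
      obtain ⟨l, hl⟩ := a
      cases l with
      | nil => rfl
      | cons j l =>
        have h1 : i ≠ j := (List.isChain_cons_cons.1 hb).1
        change (if i = j then l else i :: j :: l) = _
        rw [if_neg h1]
    · refine ⟨i, ?_⟩
      rw [h]
      simp [mu]
  · rintro ⟨i, h⟩
    obtain ⟨l, hl⟩ := a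
    cases l with
    | nil =>
      left
      exact ⟨i, h.symm⟩
    | cons j l =>
      change (if i = j then l else i :: j :: l) = _ at h
      split_ifs at h with hij
      · right
        exact ⟨j, by rw [← h]⟩
      · left
        exact ⟨i, h.symm⟩

theorem deg : Deg6 Tr := by
  intro v
  have h : Tr.neighborSet v = Set.range (fun i : Fin 6 => (⟨mu i v.1, mu_chain i v.1 v.2⟩ : Wd)) := by
    ext b
    rw [SimpleGraph.mem_neighborSet, adj_mu]
    constructor
    · rintro ⟨i, hi⟩
      exact ⟨i, Subtype.ext hi⟩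
    · rintro ⟨i, rfl⟩
      exact ⟨i, rfl⟩
  rw [h, ← Set.image_univ, Set.ncard_image_of_injective, Set.ncard_univ, Nat.card_fin]
  intro i i' hii
  exact mu_inj v.1 i i' (congrArg Subtype.val hii)

theorem reach (l : List (Fin 6)) : ∀ h : l.IsChain (· ≠ ·),
    Tr.Reachable ⟨l, h⟩ ⟨[], List.isChain_nil⟩ := by
  induction l with
  | nil => intro h; exact SimpleGraph.Reachable.refl _
  | cons i l ih =>
    intro h
    have h1 : l.IsChain (· ≠ ·) := h.tail
    have h2 : Tr.Adj ⟨i :: l, h⟩ ⟨l, h1⟩ := Or.inr ⟨i, rfl⟩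
    exact h2.reachable.trans (ih h1)

theorem parent_unique {a b b' : Wd} (h : Tr.Adj a b) (h' : Tr.Adj a b')
    (hl : b.1.length ≤ a.1.length) (hl' : b'.1.length ≤ a.1.length) : b = b' := by
  rcases h with ⟨i, h⟩ | ⟨i, h⟩
  · rw [h] at hl
    simp at hl
  · rcases h' with ⟨i', h'⟩ | ⟨i', h'⟩
    · rw [h'] at hl'
      simp at hl'
    · rw [h] at h'
      simp only [List.cons.injEq] at h'
      exact Subtype.ext h'.2

theorem acyc : Tr.IsAcyclic := by
  classical
  intro v c hc
  obtain ⟨m, hm, hmax⟩ := Finset.exists_max_image c.support.toFinset (fun w => w.1.length)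
    ⟨v, by simp⟩
  rw [List.mem_toFinset] at hm
  have hcr : (c.rotate m hm).IsCycle := SimpleGraph.Walk.IsCycle.rotate hm hc
  have h1 := (c.rotate m hm).adj_snd hcr.not_nil
  have h2 := ((c.rotate m hm).adj_penultimate hcr.not_nil).symm
  have h3 : ∀ w ∈ (c.rotate m hm).support, w.1.length ≤ m.1.length := by
    intro w hw
    apply hmax
    rw [List.mem_toFinset]
    exact (SimpleGraph.Walk.mem_support_rotate_iff c m hm).1 hw
  exact hcr.snd_ne_penultimate (parent_unique h1 h2 (h3 _ (SimpleGraph.Walk.getVert_mem_support _ _))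
    (h3 _ (SimpleGraph.Walk.getVert_mem_support _ _)))

theorem t_treeEx : TreeEx := by
  refine ⟨Wd, Tr, ?_, deg⟩
  refine ⟨?_, acyc⟩
  rw [SimpleGraph.connected_iff]
  refine ⟨?_, ⟨⟨[], List.isChain_nil⟩⟩⟩
  intro a b
  exact (reach a.1 a.2).trans (reach b.1 b.2).symm

end Pool.Agent.Y811.T6
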